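import Mathlib
import Pool.Agent.R582.NR.Force
import Pool.Agent.R582.NR.Top

/-!
# MP_31a5ad_lc, Q1: `𝔫𝔬 < 𝔠` is consistent
-/

namespace Pool.Agent.Results.MP_31a5ad_lc.SmallNonSpec

open Cardinal Set
open Pool.Agent.R582.NR
open Pool.Agent.H631R2 (Cond)

/-- `𝔫𝔬 = ℵ₁` if there is a nonmeager set of reals of size `ℵ₁`. The finite partial functions from
`K × ℕ` to `{0, 1}`, where `K` is a set with more than `ℵ₁` elements, are a forcing notion forcing
the hypothesis `Hyp` on `W = ω₁` and `K`: in the extension `W` is well-ordered with countable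
proper initial segments, there is no function from `W` onto `K`, there are `|K|` different subsets
of `ℕ`, and some family of subsets of `ℕ` indexed by `W` is not meager. In ZFC this hypothesis
implies `𝔫𝔬 = ℵ₁ < 𝔠`. So `𝔫𝔬 < 𝔠` is consistent. -/
theorem result :
    (∀ X : Set (ℕ → Bool), ¬ IsMeagre X → #X = ℵ_ 1 → noNumber = ℵ_ 1) ∧
    (∀ K : Type, ℵ_ 1 < #K → ∀ p : Cond (K × ℕ),
      p ∈ HypN (Cond (K × ℕ)) (Ordinal.omega.{0} 1).ToType K) ∧
    (∀ (W K : Type) [LinearOrder W], Hyp W K → noNumber = ℵ_ 1 ∧ noNumber < 𝔠) :=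
  ⟨fun _ h1 h2 => noNumber_of_nonmeager h1 h2, fun K hK p => forced K hK p,
    fun _ _ _ h => noNumber_lt h⟩

end Pool.Agent.Results.MP_31a5ad_lc.SmallNonSpec
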